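import Pool.Agent.Run7.h773.VP.Defs

set_option autoImplicit false

namespace Run7.h773.VP

open SimpleGraph Finset

variable {V : Type} [Fintype V]

omit [Fintype V] in
lemma two_step {T : SimpleGraph V} {U : Finset V} (hC : Cross T U) (hS : ¬ StarShaped T U)
    {h : V} (hh : h ∈ U) : ∃ g ∈ U, ∃ w ∈ U, T.Adj h g ∧ T.Adj g w ∧ w ≠ h := by
  classical
  obtain ⟨z, hz, hzh, hza⟩ : ∃ z ∈ U, z ≠ h ∧ ¬ T.Adj h z := by
    by_contra hcon
    push Not at hcon
    exact hS ⟨h, hh, hcon⟩
  obtain ⟨x, hx, y, hy, hyA, hxy⟩ := hC (U.filter fun u => u = h ∨ T.Adj h u) (filter_subset _ _)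
    ⟨h, by rw [mem_filter]; exact ⟨hh, Or.inl rfl⟩⟩ (by
      intro hEq
      have : z ∈ U.filter fun u => u = h ∨ T.Adj h u := by rw [hEq]; exact hz
      rw [mem_filter] at this
      rcases this.2 with h1 | h1
      · exact hzh h1
      · exact hza h1)
  rw [mem_filter] at hx hyA
  have hyh : y ≠ h := fun h1 => hyA ⟨hy, Or.inl h1⟩
  have hay : ¬ T.Adj h y := fun h1 => hyA ⟨hy, Or.inr h1⟩
  rcases hx.2 with h1 | h1
  · exact absurd (h1 ▸ hxy) hay
  · exact ⟨x, hx.1, y, hy, h1, hxy, hyh⟩

open Classical in
/-- the sets counted by `grow_card` -/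
noncomputable def fam (T : SimpleGraph V) (j D : ℕ) (A : Finset V) : Finset (Finset V) :=
  univ.filter fun U : Finset V => A ⊆ U ∧ U.card = j + 4 ∧ Cross T U ∧ Low T D U

open Classical in
lemma fam_card (T : SimpleGraph V) (j D : ℕ) {h g w : V} (h1 : T.Adj h g) (h2 : T.Adj g w)
    (h3 : w ≠ h) : (fam T j D {h, g, w}).card ≤ ((j + 4) * D) ^ (j + 1) := by
  unfold fam
  refine grow_card T D (j + 4) (j + 1) {h, g, w} ?_ ⟨h, by simp⟩ ?_
  · rw [card_eq_three.2 ⟨h, g, w, h1.ne, h3.symm, h2.ne, rfl⟩]
    omega
  · intro x hx
    simp only [mem_insert, mem_singleton] at hx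
    rcases hx with rfl | rfl | rfl
    · exact ⟨g, by simp, h1⟩
    · exact ⟨w, by simp, h2⟩
    · exact ⟨g, by simp, h2.symm⟩

open Classical in
lemma nonstar_count (T : SimpleGraph V) (X j : ℕ) :
    ((subtrees T (j + 4)).filter fun U => ¬ StarShaped T U).card ≤
      ∑ h : V, ∑ g : V, (if T.Adj h g ∧ T.degree g ≤ T.degree h ∧ X < T.degree h then
          T.degree g * ((j + 4) * T.degree h) ^ (j + 1) else 0)
      + Fintype.card V * (X * (X * ((j + 4) * X) ^ (j + 1))) := by
  set A : Finset (Finset V) := ((univ : Finset (V × V)).filter fun p =>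
      T.Adj p.1 p.2 ∧ T.degree p.2 ≤ T.degree p.1 ∧ X < T.degree p.1).biUnion fun p =>
        ((T.neighborFinset p.2).erase p.1).biUnion fun w => fam T j (T.degree p.1) {p.1, p.2, w}
    with hA
  set B : Finset (Finset V) := (univ : Finset V).biUnion fun h =>
      (if T.degree h ≤ X then T.neighborFinset h else ∅).biUnion fun g =>
        (if T.degree g ≤ X then (T.neighborFinset g).erase h else ∅).biUnion fun w =>
          fam T j X {h, g, w} with hB
  have hsub : ((subtrees T (j + 4)).filter fun U => ¬ StarShaped T U) ⊆ A ∪ B := by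
    intro U hU
    rw [mem_filter, subtrees, mem_filter] at hU
    obtain ⟨⟨-, hUk, hcon⟩, hS⟩ := hU
    have hC := cross_of_connected T U hcon
    have hne : U.Nonempty := by
      rw [← card_pos]
      omega
    -- the internal vertices
    set I := U.filter fun x => ∃ y ∈ U, ∃ z ∈ U, y ≠ z ∧ T.Adj x y ∧ T.Adj x z with hI
    have hIne : I.Nonempty := by
      obtain ⟨u, hu⟩ := hne
      obtain ⟨g, hg, w, hw, a1, a2, a3⟩ := two_step hC hS hu
      exact ⟨g, by rw [hI, mem_filter]; exact ⟨hg, u, hu, w, hw, a3.symm, a1.symm, a2⟩⟩
    obtain ⟨h, hhI, hmax⟩ := exists_max_image I (fun x => T.degree x) hIne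
    have hhU : h ∈ U := by
      rw [hI, mem_filter] at hhI
      exact hhI.1
    have hL : Low T (T.degree h) U := by
      intro x hx hx2
      exact hmax x (by rw [hI, mem_filter]; exact ⟨hx, hx2⟩)
    obtain ⟨g, hg, w, hw, a1, a2, a3⟩ := two_step hC hS hhU
    have hgh : T.degree g ≤ T.degree h := hL g hg ⟨h, hhU, w, hw, a3.symm, a1.symm, a2⟩
    have hsubU : ({h, g, w} : Finset V) ⊆ U := by
      intro x hx
      simp only [mem_insert, mem_singleton] at hx
      rcases hx with rfl | rfl | rfl
      · exact hhU
      · exact hg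
      · exact hw
    rw [mem_union]
    rcases lt_or_ge X (T.degree h) with hX | hX
    · left
      rw [hA, mem_biUnion]
      refine ⟨(h, g), by rw [mem_filter]; exact ⟨mem_univ _, a1, hgh, hX⟩, ?_⟩
      rw [mem_biUnion]
      refine ⟨w, by rw [mem_erase, mem_neighborFinset]; exact ⟨a3, a2⟩, ?_⟩
      rw [fam, mem_filter]
      exact ⟨mem_univ _, hsubU, hUk, hC, hL⟩
    · right
      rw [hB, mem_biUnion]
      refine ⟨h, mem_univ _, ?_⟩
      rw [if_pos hX, mem_biUnion]
      refine ⟨g, by rw [mem_neighborFinset]; exact a1, ?_⟩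
      rw [if_pos (hgh.trans hX), mem_biUnion]
      refine ⟨w, by rw [mem_erase, mem_neighborFinset]; exact ⟨a3, a2⟩, ?_⟩
      rw [fam, mem_filter]
      exact ⟨mem_univ _, hsubU, hUk, hC, fun x hx hx2 => (hL x hx hx2).trans hX⟩
  have hAcard : A.card ≤ ∑ h : V, ∑ g : V,
      (if T.Adj h g ∧ T.degree g ≤ T.degree h ∧ X < T.degree h then
          T.degree g * ((j + 4) * T.degree h) ^ (j + 1) else 0) := by
    rw [← Fintype.sum_prod_type', ← sum_filter, hA]
    refine card_biUnion_le.trans (sum_le_sum fun p hp => ?_)
    rw [mem_filter] at hp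
    refine card_biUnion_le.trans ?_
    calc _ ≤ ∑ w ∈ (T.neighborFinset p.2).erase p.1, ((j + 4) * T.degree p.1) ^ (j + 1) := by
          refine sum_le_sum fun w hw => ?_
          rw [mem_erase, mem_neighborFinset] at hw
          exact fam_card T j _ hp.2.1 hw.2 hw.1
      _ = ((T.neighborFinset p.2).erase p.1).card * ((j + 4) * T.degree p.1) ^ (j + 1) := by
          rw [sum_const, smul_eq_mul]
      _ ≤ _ := by
          refine Nat.mul_le_mul_right _ ?_
          refine (card_erase_le).trans ?_
          rw [card_neighborFinset_eq_degree]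
  have hBcard : B.card ≤ Fintype.card V * (X * (X * ((j + 4) * X) ^ (j + 1))) := by
    rw [hB]
    refine card_biUnion_le.trans ?_
    calc _ ≤ ∑ _h : V, X * (X * ((j + 4) * X) ^ (j + 1)) := by
          refine sum_le_sum fun h _ => ?_
          refine card_biUnion_le.trans ?_
          calc _ ≤ ∑ g ∈ (if T.degree h ≤ X then T.neighborFinset h else ∅),
                X * ((j + 4) * X) ^ (j + 1) := by
                refine sum_le_sum fun g hg => ?_
                have hadj : T.Adj h g := by
                  split_ifs at hg with h1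
                  · rwa [mem_neighborFinset] at hg
                  · simp at hg
                refine card_biUnion_le.trans ?_
                calc _ ≤ ∑ w ∈ (if T.degree g ≤ X then (T.neighborFinset g).erase h else ∅),
                      ((j + 4) * X) ^ (j + 1) := by
                      refine sum_le_sum fun w hw => ?_
                      split_ifs at hw with h1
                      · rw [mem_erase, mem_neighborFinset] at hw
                        exact fam_card T j _ hadj hw.2 hw.1
                      · simp at hw
                  _ ≤ _ := by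
                      rw [sum_const, smul_eq_mul]
                      refine Nat.mul_le_mul_right _ ?_
                      split_ifs with h1
                      · refine (card_erase_le).trans ?_
                        rw [card_neighborFinset_eq_degree]
                        exact h1
                      · simp
            _ ≤ _ := by
                rw [sum_const, smul_eq_mul]
                refine Nat.mul_le_mul_right _ ?_
                split_ifs with h1
                · rw [card_neighborFinset_eq_degree]
                  exact h1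
                · simp
      _ = _ := by
          rw [sum_const, smul_eq_mul, card_univ]
  exact (card_le_card hsub).trans ((card_union_le _ _).trans (Nat.add_le_add hAcard hBcard))

end Run7.h773.VP
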