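import Mathlib

/-!
Copies of trees on `k` vertices in a tree.
-/

set_option autoImplicit false

namespace Run7.h773.VP

open SimpleGraph Finset

variable {V : Type} [Fintype V]

open Classical in
/-- The `k`-element sets of vertices of `T` which induce a connected subgraph. If `T` is a tree
these are the vertex sets of the subtrees of `T` with `k` vertices. -/
noncomputable def subtrees (T : SimpleGraph V) (k : ℕ) : Finset (Finset V) :=
  univ.filter fun U => U.card = k ∧ (T.induce (U : Set V)).Connected

open Classical in
/-- The number of the sets of vertices of `T` which induce a subgraph isomorphic to `S`. -/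
noncomputable def copies (T : SimpleGraph V) {k : ℕ} (S : SimpleGraph (Fin k)) : ℕ :=
  (univ.filter fun U : Finset V => Nonempty (T.induce (U : Set V) ≃g S)).card

/-- Every nonempty proper subset of `U` has an edge to its complement in `U`. -/
def Cross (T : SimpleGraph V) (U : Finset V) : Prop :=
  ∀ A ⊆ U, A.Nonempty → A ≠ U → ∃ x ∈ A, ∃ y ∈ U, y ∉ A ∧ T.Adj x y

/-- Some vertex of `U` is adjacent to all others. -/
def StarShaped (T : SimpleGraph V) (U : Finset V) : Prop :=
  ∃ c ∈ U, ∀ w ∈ U, w ≠ c → T.Adj c w

open Classical in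
/-- The vertices with two neighbours in `U` have degree at most `D`. -/
def Low (T : SimpleGraph V) (D : ℕ) (U : Finset V) : Prop :=
  ∀ x ∈ U, (∃ y ∈ U, ∃ z ∈ U, y ≠ z ∧ T.Adj x y ∧ T.Adj x z) → T.degree x ≤ D

omit [Fintype V] in
lemma cross_of_connected (T : SimpleGraph V) (U : Finset V)
    (h : (T.induce (U : Set V)).Connected) : Cross T U := by
  intro A hA hne hAU
  obtain ⟨a, ha⟩ := hne
  obtain ⟨b, hbU, hbA⟩ : ∃ b ∈ U, b ∉ A := by
    by_contra hcon
    push Not at hcon
    exact hAU (Finset.Subset.antisymm hA hcon)
  obtain ⟨p⟩ := h.preconnected ⟨a, by exact_mod_cast hA ha⟩ ⟨b, by exact_mod_cast hbU⟩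
  obtain ⟨d, _, hd1, hd2⟩ := p.exists_boundary_dart {x | (x : V) ∈ A} ha hbA
  refine ⟨d.fst, hd1, d.snd, ?_, hd2, ?_⟩
  · exact_mod_cast d.snd.2
  · exact d.adj

open Classical in
lemma grow_card (T : SimpleGraph V) (D k : ℕ) : ∀ (j : ℕ) (A : Finset V), A.card + j = k →
    A.Nonempty → (∀ x ∈ A, ∃ z ∈ A, T.Adj x z) →
    (univ.filter fun U : Finset V => A ⊆ U ∧ U.card = k ∧ Cross T U ∧ Low T D U).card ≤
      (k * D) ^ j := by
  intro j
  induction j with
  | zero =>
    intro A hA _ _
    rw [pow_zero, Finset.card_le_one]
    intro U hU W hW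
    rw [mem_filter] at hU hW
    have h1 := Finset.eq_of_subset_of_card_le hU.2.1 (by omega)
    have h2 := Finset.eq_of_subset_of_card_le hW.2.1 (by omega)
    rw [← h1, ← h2]
  | succ j ih =>
    intro A hA hne hiso
    have hsub : (univ.filter fun U : Finset V => A ⊆ U ∧ U.card = k ∧ Cross T U ∧ Low T D U) ⊆
        (A.filter fun x => T.degree x ≤ D).biUnion fun x =>
          (T.neighborFinset x \ A).biUnion fun y =>
            univ.filter fun U : Finset V => insert y A ⊆ U ∧ U.card = k ∧ Cross T U ∧ Low T D U := by
      intro U hU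
      rw [mem_filter] at hU
      obtain ⟨-, hAU, hUk, hC, hL⟩ := hU
      obtain ⟨x, hx, y, hy, hyA, hxy⟩ := hC A hAU hne (by
        intro h
        rw [h] at hA
        omega)
      obtain ⟨z, hz, hxz⟩ := hiso x hx
      rw [mem_biUnion]
      refine ⟨x, ?_, ?_⟩
      · rw [mem_filter]
        exact ⟨hx, hL x (hAU hx) ⟨y, hy, z, hAU hz, fun h => hyA (h ▸ hz), hxy, hxz⟩⟩
      · rw [mem_biUnion]
        refine ⟨y, ?_, ?_⟩
        · rw [mem_sdiff, mem_neighborFinset]
          exact ⟨hxy, hyA⟩
        · rw [mem_filter]
          exact ⟨mem_univ _, Finset.insert_subset hy hAU, hUk, hC, hL⟩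
    refine (card_le_card hsub).trans ?_
    calc _ ≤ ∑ x ∈ A.filter (fun x => T.degree x ≤ D), D * (k * D) ^ j := by
          refine card_biUnion_le.trans (Finset.sum_le_sum fun x hx => ?_)
          rw [mem_filter] at hx
          refine card_biUnion_le.trans ?_
          calc _ ≤ ∑ y ∈ T.neighborFinset x \ A, (k * D) ^ j := by
                refine Finset.sum_le_sum fun y hy => ?_
                rw [mem_sdiff, mem_neighborFinset] at hy
                refine ih (insert y A) ?_ (Finset.insert_nonempty _ _) ?_
                · rw [card_insert_of_notMem hy.2]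
                  omega
                · intro u hu
                  rw [mem_insert] at hu
                  rcases hu with rfl | hu
                  · exact ⟨x, mem_insert_of_mem hx.1, hy.1.symm⟩
                  · obtain ⟨z, hz, huz⟩ := hiso u hu
                    exact ⟨z, mem_insert_of_mem hz, huz⟩
            _ = (T.neighborFinset x \ A).card * (k * D) ^ j := by rw [sum_const, smul_eq_mul]
            _ ≤ D * (k * D) ^ j := by
                refine Nat.mul_le_mul_right _ ?_
                exact (card_le_card sdiff_subset).trans (by rw [card_neighborFinset_eq_degree]; exact hx.2)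
      _ = (A.filter fun x => T.degree x ≤ D).card * (D * (k * D) ^ j) := by
          rw [sum_const, smul_eq_mul]
      _ ≤ k * (D * (k * D) ^ j) := by
          refine Nat.mul_le_mul_right _ ((card_filter_le _ _).trans ?_)
          omega
      _ = (k * D) ^ (j + 1) := by ring

end Run7.h773.VP
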