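import Mathlib

set_option autoImplicit false

namespace Run7.h773.VP

open SimpleGraph Finset

variable {V : Type} [Fintype V]

omit [Fintype V] in
lemma dist_le_of_mem {T : SimpleGraph V} {r u x : V} (p : T.Walk r u) (hx : x ∈ p.support) :
    T.dist r x ≤ p.length := by
  classical
  exact (dist_le (p.takeUntil x hx)).trans (p.length_takeUntil_le hx)

omit [Fintype V] in
lemma closer_unique {T : SimpleGraph V} (hT : T.IsTree) {r u h g : V} (h1 : T.Adj u g)
    (h2 : T.dist r u < T.dist r g) (h3 : T.Adj h g) (h4 : T.dist r h < T.dist r g) : u = h := by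
  obtain ⟨p, hp, hpl⟩ := hT.connected.exists_path_of_dist r u
  obtain ⟨q, hq, hql⟩ := hT.connected.exists_path_of_dist r h
  have hp' : (p.concat h1).IsPath := hp.concat (fun hx => by
    have := dist_le_of_mem p hx
    omega) h1
  have hq' : (q.concat h3).IsPath := hq.concat (fun hx => by
    have := dist_le_of_mem q hx
    omega) h3
  have he := hT.isAcyclic.path_unique ⟨_, hp'⟩ ⟨_, hq'⟩
  have he' : p.concat h1 = q.concat h3 := congrArg Subtype.val he
  have h5 := p.penultimate_concat h1
  have h6 := q.penultimate_concat h3
  rw [he'] at h5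
  exact h5.symm.trans h6

omit [Fintype V] in
lemma exists_par {T : SimpleGraph V} (hT : T.IsTree) :
    ∃ par : V → V, ∀ h g, T.Adj h g → par g = h ∨ par h = g := by
  classical
  obtain ⟨r⟩ := hT.connected.nonempty
  refine ⟨fun v => if hv : ∃ u, T.Adj u v ∧ T.dist r u < T.dist r v then hv.choose else v,
    fun h g hadj => ?_⟩
  rcases lt_or_gt_of_ne (hT.dist_ne_of_adj r hadj) with hlt | hgt
  · left
    have hex : ∃ u, T.Adj u g ∧ T.dist r u < T.dist r g := ⟨h, hadj, hlt⟩
    show (if hv : ∃ u, T.Adj u g ∧ T.dist r u < T.dist r g then hv.choose else g) = h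
    rw [dif_pos hex]
    exact closer_unique hT hex.choose_spec.1 hex.choose_spec.2 hadj hlt
  · right
    have hex : ∃ u, T.Adj u h ∧ T.dist r u < T.dist r h := ⟨g, hadj.symm, hgt⟩
    show (if hv : ∃ u, T.Adj u h ∧ T.dist r u < T.dist r h then hv.choose else h) = g
    rw [dif_pos hex]
    exact closer_unique hT hex.choose_spec.1 hex.choose_spec.2 hadj.symm hgt

open Classical in
/-- the edges with a vertex of large degree -/
lemma edge_sum {T : SimpleGraph V} (hT : T.IsTree) (j M : ℕ) (hM : 1 ≤ M) :
    M * ∑ h : V, ∑ g : V, (if T.Adj h g ∧ T.degree g ≤ T.degree h ∧ M ^ (j + 3) < T.degree h then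
      T.degree g * T.degree h ^ (j + 1) else 0) ≤ 3 * ∑ v : V, T.degree v ^ (j + 3) := by
  obtain ⟨par, hpar⟩ := exists_par hT
  set f : V → V → ℕ := fun h g => if T.Adj h g ∧ T.degree g ≤ T.degree h ∧
    M ^ (j + 3) < T.degree h then T.degree g * T.degree h ^ (j + 1) else 0 with hf
  have h1 : ∀ h g, f h g ≤ (if g = par h then f h g else 0) + (if h = par g then f h g else 0) := by
    intro h g
    by_cases hadj : T.Adj h g
    · rcases hpar h g hadj with e | e
      · rw [if_pos e.symm (c := h = par g)]
        exact Nat.le_add_left _ _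
      · rw [if_pos e.symm (c := g = par h)]
        exact Nat.le_add_right _ _
    · have : f h g = 0 := by
        simp only [hf]
        rw [if_neg (fun hc => hadj hc.1)]
      rw [this]
      exact Nat.zero_le _
  have h2 : ∑ h : V, ∑ g : V, f h g ≤ ∑ h : V, f h (par h) + ∑ g : V, f (par g) g := by
    calc _ ≤ ∑ h : V, ∑ g : V, ((if g = par h then f h g else 0) +
          (if h = par g then f h g else 0)) := sum_le_sum fun h _ => sum_le_sum fun g _ => h1 h g
      _ = ∑ h : V, ∑ g : V, (if g = par h then f h g else 0) +
          ∑ h : V, ∑ g : V, (if h = par g then f h g else 0) := by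
          simp only [sum_add_distrib]
      _ = ∑ h : V, f h (par h) + ∑ g : V, f (par g) g := by
          congr 1
          · refine sum_congr rfl fun h _ => ?_
            rw [sum_ite_eq']
            simp
          · rw [sum_comm]
            refine sum_congr rfl fun g _ => ?_
            rw [sum_ite_eq']
            simp
  have hMpow : M ≤ M ^ (j + 3) := Nat.le_self_pow (by omega) M
  have h3 : M * ∑ h : V, f h (par h) ≤ ∑ v : V, T.degree v ^ (j + 3) := by
    rw [mul_sum]
    refine sum_le_sum fun h _ => ?_
    simp only [hf]
    split_ifs with hc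
    · obtain ⟨-, a2, a3⟩ := hc
      calc M * (T.degree (par h) * T.degree h ^ (j + 1))
          ≤ T.degree h * (T.degree h * T.degree h ^ (j + 1)) :=
            Nat.mul_le_mul (by omega) (Nat.mul_le_mul_right _ a2)
        _ = T.degree h ^ (j + 3) := by ring
    · simp
  have h4 : M * ∑ g : V, f (par g) g ≤ 2 * ∑ v : V, T.degree v ^ (j + 3) := by
    have h5 : ∀ g, M * f (par g) g ≤
        (if T.Adj (par g) g then T.degree (par g) ^ (j + 2) else 0) + T.degree g ^ (j + 3) := by
      intro g
      simp only [hf]
      split_ifs with hc hd hd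
      · obtain ⟨-, a2, a3⟩ := hc
        rcases Nat.lt_or_ge (T.degree (par g)) (M * T.degree g) with hlt | hge
        · have b1 : M ^ (j + 2) ≤ T.degree g := by
            have : M * M ^ (j + 2) < M * T.degree g := by
              calc M * M ^ (j + 2) = M ^ (j + 3) := by ring
                _ < _ := a3.trans hlt
            exact (Nat.lt_of_mul_lt_mul_left this).le
          refine le_trans ?_ (Nat.le_add_left _ _)
          calc M * (T.degree g * T.degree (par g) ^ (j + 1))
              ≤ M * (T.degree g * (M * T.degree g) ^ (j + 1)) :=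
                Nat.mul_le_mul_left _ (Nat.mul_le_mul_left _ (Nat.pow_le_pow_left hlt.le _))
            _ = M ^ (j + 2) * T.degree g ^ (j + 2) := by ring
            _ ≤ T.degree g * T.degree g ^ (j + 2) := Nat.mul_le_mul_right _ b1
            _ = T.degree g ^ (j + 3) := by ring
        · refine le_trans ?_ (Nat.le_add_right _ _)
          calc M * (T.degree g * T.degree (par g) ^ (j + 1))
              = (M * T.degree g) * T.degree (par g) ^ (j + 1) := by ring
            _ ≤ T.degree (par g) * T.degree (par g) ^ (j + 1) := Nat.mul_le_mul_right _ hge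
            _ = T.degree (par g) ^ (j + 2) := by ring
      · exact absurd hc.1 hd
      · simp
      · simp
    calc M * ∑ g : V, f (par g) g = ∑ g : V, M * f (par g) g := by rw [mul_sum]
      _ ≤ ∑ g : V, ((if T.Adj (par g) g then T.degree (par g) ^ (j + 2) else 0) +
          T.degree g ^ (j + 3)) := sum_le_sum fun g _ => h5 g
      _ = ∑ g : V, (if T.Adj (par g) g then T.degree (par g) ^ (j + 2) else 0) +
          ∑ g : V, T.degree g ^ (j + 3) := sum_add_distrib
      _ ≤ ∑ g : V, T.degree g ^ (j + 3) + ∑ g : V, T.degree g ^ (j + 3) := by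
          refine Nat.add_le_add_right ?_ _
          calc _ ≤ ∑ g : V, ∑ p : V, (if T.Adj p g then T.degree p ^ (j + 2) else 0) := by
                refine sum_le_sum fun g _ => ?_
                exact single_le_sum (f := fun p => if T.Adj p g then T.degree p ^ (j + 2) else 0)
                  (fun _ _ => Nat.zero_le _) (mem_univ (par g))
            _ = ∑ p : V, ∑ g : V, (if T.Adj p g then T.degree p ^ (j + 2) else 0) := sum_comm
            _ = ∑ p : V, T.degree p ^ (j + 3) := by
                refine sum_congr rfl fun p _ => ?_
                rw [← sum_filter, sum_const, smul_eq_mul]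
                have : (univ.filter fun g => T.Adj p g).card = T.degree p := by
                  rw [← card_neighborFinset_eq_degree]
                  congr 1
                  ext g
                  simp
                rw [this]
                ring
      _ = _ := by ring
  calc M * ∑ h : V, ∑ g : V, f h g
      ≤ M * (∑ h : V, f h (par h) + ∑ g : V, f (par g) g) := Nat.mul_le_mul_left _ h2
    _ = M * ∑ h : V, f h (par h) + M * ∑ g : V, f (par g) g := by ring
    _ ≤ ∑ v : V, T.degree v ^ (j + 3) + 2 * ∑ v : V, T.degree v ^ (j + 3) := Nat.add_le_add h3 h4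
    _ = _ := by ring

end Run7.h773.VP
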