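import Pool.Agent.Run7.h773.VP.Main

set_option autoImplicit false

namespace Run7.h773.VP

open SimpleGraph Finset Filter Topology

variable {V : Type} [Fintype V]

open Classical in
lemma pow_sum_le {T : SimpleGraph V} (hT : T.IsTree) (j : ℕ) :
    ∑ v, T.degree v ^ (j + 3) ≤
      K j * ((j + 4) * copies T (starGraph (0 : Fin (j + 4))) + Fintype.card V) := by
  calc _ ≤ ∑ v, K j * ((T.degree v).choose (j + 3) + 1) := sum_le_sum fun v _ => pow_le_K j _
    _ = K j * (∑ v, (T.degree v).choose (j + 3) + Fintype.card V) := by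
        rw [← mul_sum, sum_add_distrib]
        simp
    _ ≤ _ := Nat.mul_le_mul_left _ (Nat.add_le_add_right (star_count hT j) _)

open Classical in
lemma nonstar_le (j M : ℕ) (hM : 1 ≤ M) : ∃ B : ℕ, ∀ (V : Type) [Fintype V] (T : SimpleGraph V),
    T.IsTree → M * ((subtrees T (j + 4)).filter fun U => ¬ StarShaped T U).card ≤
      (3 * (j + 4) ^ (j + 1) * K j * (j + 4)) * copies T (starGraph (0 : Fin (j + 4))) +
        B * Fintype.card V := by
  obtain ⟨X, hX⟩ : ∃ X, X = M ^ (j + 3) := ⟨_, rfl⟩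
  refine ⟨3 * (j + 4) ^ (j + 1) * K j + M * (X * (X * ((j + 4) * X) ^ (j + 1))),
    fun V _ T hT => ?_⟩
  have h1 := nonstar_count T X j
  have h2 := edge_sum hT j M hM
  have h3 := pow_sum_le hT j
  rw [← hX] at h2
  have h4 : ∑ h : V, ∑ g : V, (if T.Adj h g ∧ T.degree g ≤ T.degree h ∧ X < T.degree h then
      T.degree g * ((j + 4) * T.degree h) ^ (j + 1) else 0) =
      (j + 4) ^ (j + 1) * ∑ h : V, ∑ g : V, (if T.Adj h g ∧ T.degree g ≤ T.degree h ∧
        X < T.degree h then T.degree g * T.degree h ^ (j + 1) else 0) := by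
    rw [mul_sum]
    refine sum_congr rfl fun h _ => ?_
    rw [mul_sum]
    refine sum_congr rfl fun g _ => ?_
    split_ifs
    · rw [mul_pow]
      ring
    · simp
  rw [h4] at h1
  generalize ((subtrees T (j + 4)).filter fun U => ¬ StarShaped T U).card = N at *
  generalize (∑ h : V, ∑ g : V, (if T.Adj h g ∧ T.degree g ≤ T.degree h ∧
        X < T.degree h then T.degree g * T.degree h ^ (j + 1) else 0)) = E at *
  generalize copies T (starGraph (0 : Fin (j + 4))) = S at *
  generalize (∑ v, T.degree v ^ (j + 3)) = F at *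
  generalize X * (X * ((j + 4) * X) ^ (j + 1)) = B at *
  generalize Fintype.card V = n at *
  calc M * N ≤ M * ((j + 4) ^ (j + 1) * E + n * B) := Nat.mul_le_mul_left _ h1
    _ = (j + 4) ^ (j + 1) * (M * E) + M * B * n := by ring
    _ ≤ (j + 4) ^ (j + 1) * (3 * F) + M * B * n :=
        Nat.add_le_add_right (Nat.mul_le_mul_left _ h2) _
    _ ≤ (j + 4) ^ (j + 1) * (3 * (K j * ((j + 4) * S + n))) + M * B * n :=
        Nat.add_le_add_right (Nat.mul_le_mul_left _ (Nat.mul_le_mul_left _ h3)) _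
    _ = _ := by ring

lemma exists_small (κ J η : ℝ) (hK : 0 < κ) (hj : 0 < J) (hη : 0 < η) :
    ∃ ε : ℝ, 0 < ε ∧ ε * κ ≤ 1 / 4 ∧ ε * κ * J ≤ η / 2 := by
  refine ⟨min (1 / (4 * κ)) (η / (2 * κ * J)), by positivity, ?_, ?_⟩
  · calc _ ≤ 1 / (4 * κ) * κ := mul_le_mul_of_nonneg_right (min_le_left _ _) hK.le
      _ = 1 / 4 := by field_simp
  · calc _ ≤ η / (2 * κ * J) * κ * J :=
          mul_le_mul_of_nonneg_right (mul_le_mul_of_nonneg_right (min_le_right _ _) hK.le) hj.le
      _ = η / 2 := by field_simp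

open Classical in
lemma dichotomy (j : ℕ) (η : ℝ) (hη : 0 < η) : ∃ n₀ : ℕ, ∀ (V : Type) [Fintype V]
    (T : SimpleGraph V), T.IsTree → n₀ ≤ Fintype.card V →
      (Fintype.card V : ℝ) ≤ (j + 4) * copies T (pathGraph (j + 4)) ∨
      (Fintype.card V : ℝ) ≤ η * copies T (starGraph (0 : Fin (j + 4))) := by
  have hK : (0 : ℝ) < K j := by exact_mod_cast K_pos j
  have hj : (0 : ℝ) < (j : ℝ) + 4 := by positivity
  obtain ⟨ε, hε, he1, he2⟩ := exists_small (K j : ℝ) ((j : ℝ) + 4) η hK hj hη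
  obtain ⟨C, hC, h⟩ := small_ecc (j + 3) (by omega) (j + 2) ε hε
  refine ⟨⌈4 * C⌉₊, fun V _ T hT hn => ?_⟩
  have hn' : 4 * C ≤ Fintype.card V := (Nat.le_ceil _).trans (by exact_mod_cast hn)
  by_cases hcase : ∀ v, ∃ z, j + 3 ≤ T.dist v z
  · left
    exact_mod_cast path_count hT j hcase
  · right
    push Not at hcase
    obtain ⟨v, hv⟩ := hcase
    have h1 := h V T hT.connected v fun z => by
      have := hv z
      omega
    have h2 : (∑ x, (T.degree x : ℝ) ^ (j + 3)) ≤
        K j * ((j + 4) * copies T (starGraph (0 : Fin (j + 4))) + Fintype.card V) := by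
      exact_mod_cast pow_sum_le hT j
    have h3 := mul_le_mul_of_nonneg_left h2 hε.le
    have hS : (0 : ℝ) ≤ copies T (starGraph (0 : Fin (j + 4))) := Nat.cast_nonneg _
    have hn0 : (0 : ℝ) ≤ Fintype.card V := Nat.cast_nonneg _
    have h4 := mul_le_mul_of_nonneg_right he1 hn0
    have h5 := mul_le_mul_of_nonneg_right he2 hS
    nlinarith

open Classical in
/-- The inequality behind the theorem. -/
theorem quant (j : ℕ) (ε : ℝ) (hε : 0 < ε) : ∃ C : ℝ, 0 ≤ C ∧ ∃ n₀ : ℕ,
    ∀ (V : Type) [Fintype V] (T : SimpleGraph V), T.IsTree → n₀ ≤ Fintype.card V →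
      ((subtrees T (j + 4)).card : ℝ) ≤ (1 + ε) * copies T (starGraph (0 : Fin (j + 4))) +
        C * copies T (pathGraph (j + 4)) ∧ 0 < (subtrees T (j + 4)).card := by
  obtain ⟨A, hA⟩ : ∃ A : ℕ, A = 3 * (j + 4) ^ (j + 1) * K j * (j + 4) := ⟨_, rfl⟩
  obtain ⟨M, hM1, hM2⟩ : ∃ M : ℕ, 1 ≤ M ∧ (A : ℝ) ≤ ε / 2 * M := by
    refine ⟨⌈2 * A / ε⌉₊ + 1, by omega, ?_⟩
    have h1 : 2 * (A : ℝ) / ε ≤ ⌈2 * (A : ℝ) / ε⌉₊ := Nat.le_ceil _
    rw [div_le_iff₀ hε] at h1
    push_cast
    nlinarith
  obtain ⟨B, hB⟩ := nonstar_le j M hM1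
  have hB0 : (0 : ℝ) ≤ B := Nat.cast_nonneg _
  obtain ⟨n₀, hn₀⟩ := dichotomy j (ε / (2 * (B + 1))) (by positivity)
  refine ⟨B * (j + 4), by positivity, n₀ + 1, fun V _ T hT hn => ?_⟩
  have h1 := hB V T hT
  have h2 := hn₀ V T hT (by omega)
  have h3 := total_le hT j
  have h4 := star_le T j
  have h5 := path_le T j
  rw [← hA] at h1
  have hn1 : 1 ≤ Fintype.card V := by omega
  generalize ((subtrees T (j + 4)).filter fun U => ¬ StarShaped T U).card = N at *
  generalize (subtrees T (j + 4)).card = Z at *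
  generalize copies T (starGraph (0 : Fin (j + 4))) = S at *
  generalize copies T (pathGraph (j + 4)) = P at *
  generalize Fintype.card V = n at *
  have hS0 : (0 : ℝ) ≤ S := Nat.cast_nonneg _
  have hP0 : (0 : ℝ) ≤ P := Nat.cast_nonneg _
  have hN0 : (0 : ℝ) ≤ N := Nat.cast_nonneg _
  have hn1' : (1 : ℝ) ≤ n := by exact_mod_cast hn1
  have hM1' : (1 : ℝ) ≤ M := by exact_mod_cast hM1
  have hMpos : (0 : ℝ) < M := by linarith
  have hη : (0 : ℝ) < ε / (2 * (B + 1)) := by positivity
  constructor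
  · have h1' : (M : ℝ) * N ≤ A * S + B * n := by exact_mod_cast h1
    have h3' : (Z : ℝ) ≤ S + N := by exact_mod_cast h3
    have h6 : (n : ℝ) ≤ (j + 4) * P + ε / (2 * (B + 1)) * S := by
      rcases h2 with h2 | h2
      · have : 0 ≤ ε / (2 * (B + 1)) * (S : ℝ) := by positivity
        linarith
      · have : 0 ≤ ((j : ℝ) + 4) * P := by positivity
        linarith
    have h7 : (B : ℝ) * (ε / (2 * (B + 1))) ≤ ε / 2 := by
      rw [mul_div_assoc', div_le_div_iff₀ (by positivity) (by norm_num)]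
      nlinarith
    have h8 : (B : ℝ) * n ≤ B * (j + 4) * P + ε / 2 * S := by
      calc (B : ℝ) * n ≤ B * ((j + 4) * P + ε / (2 * (B + 1)) * S) :=
            mul_le_mul_of_nonneg_left h6 hB0
        _ = B * (j + 4) * P + B * (ε / (2 * (B + 1))) * S := by ring
        _ ≤ _ := by
            have := mul_le_mul_of_nonneg_right h7 hS0
            linarith
    have h9 : (M : ℝ) * N ≤ M * (ε / 2 * S + B * n) := by
      have a1 := mul_le_mul_of_nonneg_right hM2 hS0
      have a2 : (B : ℝ) * n ≤ M * (B * n) := by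
        have : 0 ≤ (B : ℝ) * n := by positivity
        nlinarith
      nlinarith
    have h10 : (N : ℝ) ≤ ε / 2 * S + B * n := le_of_mul_le_mul_left h9 hMpos
    linarith
  · rcases h2 with h2 | h2
    · have : (0 : ℝ) < P := by
        by_contra hcon
        have : (P : ℝ) = 0 := le_antisymm (not_lt.1 hcon) hP0
        rw [this] at h2
        linarith
      have : 0 < P := by exact_mod_cast this
      omega
    · have : (0 : ℝ) < S := by
        by_contra hcon
        have : (S : ℝ) = 0 := le_antisymm (not_lt.1 hcon) hS0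
        rw [this] at h2
        linarith
      have : 0 < S := by exact_mod_cast this
      omega

/-- If the density of the paths tends to zero then the density of the stars tends to one. -/
theorem main (j : ℕ) (m : ℕ → ℕ) (T : ∀ n, SimpleGraph (Fin (m n))) (hT : ∀ n, (T n).IsTree)
    (hm : Tendsto m atTop atTop)
    (hP : Tendsto (fun n => (copies (T n) (pathGraph (j + 4)) : ℝ) /
      (subtrees (T n) (j + 4)).card) atTop (𝓝 0)) :
    Tendsto (fun n => (copies (T n) (starGraph (0 : Fin (j + 4))) : ℝ) /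
      (subtrees (T n) (j + 4)).card) atTop (𝓝 1) := by
  rw [tendsto_order]
  constructor
  · intro a ha
    obtain ⟨C, hC, n₀, h⟩ := quant j ((1 - a) / 3) (by linarith)
    have h1 : ∀ᶠ n in atTop, (copies (T n) (pathGraph (j + 4)) : ℝ) /
        (subtrees (T n) (j + 4)).card < (1 - a) / (3 * (C + 1)) :=
      hP.eventually_lt_const (div_pos (by linarith) (by positivity))
    filter_upwards [h1, hm.eventually_ge_atTop n₀] with n hn1 hn2
    obtain ⟨h2, h3⟩ := h (Fin (m n)) (T n) (hT n) (by rwa [Fintype.card_fin])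
    have h4 := star_le (T n) j
    generalize (subtrees (T n) (j + 4)).card = Z at *
    generalize copies (T n) (starGraph (0 : Fin (j + 4))) = S at *
    generalize copies (T n) (pathGraph (j + 4)) = P at *
    have hZ : (0 : ℝ) < Z := by exact_mod_cast h3
    have h4' : (S : ℝ) ≤ Z := by exact_mod_cast h4
    rw [div_lt_iff₀ hZ] at hn1
    rw [lt_div_iff₀ hZ]
    have h5 : C * (P : ℝ) ≤ (1 - a) / 3 * Z := by
      calc C * (P : ℝ) ≤ C * ((1 - a) / (3 * (C + 1)) * Z) := mul_le_mul_of_nonneg_left hn1.le hC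
        _ = (C / (C + 1)) * ((1 - a) / 3 * Z) := by field_simp
        _ ≤ 1 * ((1 - a) / 3 * Z) := by
            refine mul_le_mul_of_nonneg_right ?_ (by nlinarith)
            rw [div_le_one (by positivity)]
            linarith
        _ = _ := one_mul _
    have h6 : (1 - a) / 3 * (S : ℝ) ≤ (1 - a) / 3 * Z :=
      mul_le_mul_of_nonneg_left h4' (by linarith)
    nlinarith
  · intro a ha
    filter_upwards with n
    refine lt_of_le_of_lt ?_ ha
    exact div_le_one_of_le₀ (by exact_mod_cast star_le (T n) j) (Nat.cast_nonneg _)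

end Run7.h773.VP
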