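import Pool.Agent.Run7.h773.VP.Defs

set_option autoImplicit false

namespace Run7.h773.VP

open SimpleGraph Finset

variable {V : Type} [Fintype V]

omit [Fintype V] in
open Classical in
lemma iso_image {k : ℕ} (T : SimpleGraph V) (S : SimpleGraph (Fin k)) (f : Fin k → V)
    (hf : Function.Injective f) (hadj : ∀ a b, T.Adj (f a) (f b) ↔ S.Adj a b) :
    Nonempty (T.induce ((univ.image f : Finset V) : Set V) ≃g S) := by
  have hb : Function.Bijective
      (fun a : Fin k => (⟨f a, by simp⟩ : ((univ.image f : Finset V) : Set V))) := by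
    constructor
    · intro a b hab
      exact hf (congrArg Subtype.val hab)
    · rintro ⟨x, hx⟩
      simp only [coe_image, coe_univ, Set.image_univ, Set.mem_range] at hx
      obtain ⟨a, rfl⟩ := hx
      exact ⟨a, rfl⟩
  let e : S ≃g T.induce ((univ.image f : Finset V) : Set V) :=
    { toEquiv := Equiv.ofBijective _ hb
      map_rel_iff' := by
        intro a b
        exact hadj a b }
  exact ⟨e.symm⟩

omit [Fintype V] in
open Classical in
/-- a vertex at distance at least `k - 1` gives a path with `k` vertices -/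
lemma path_through {T : SimpleGraph V} (hT : T.Connected) (k : ℕ) (v z : V)
    (hz : k ≤ T.dist v z + 1) (hk : 1 ≤ k) :
    ∃ U : Finset V, v ∈ U ∧ Nonempty (T.induce (U : Set V) ≃g pathGraph k) := by
  obtain ⟨p, hp⟩ := hT.exists_walk_length_eq_dist v z
  have hd : ∀ a, a ≤ p.length → T.dist v (p.getVert a) = a := by
    intro a ha
    have h1 : T.dist v (p.getVert a) ≤ a := by
      have := dist_le (p.take a)
      rw [Walk.take_length] at this
      exact this.trans (min_le_left _ _)
    have h2 : T.dist (p.getVert a) z ≤ p.length - a := by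
      have := dist_le (p.drop a)
      rwa [Walk.drop_length] at this
    have h3 := hT.dist_triangle (u := v) (v := p.getVert a) (w := z)
    omega
  let f : Fin k → V := fun a => p.getVert a
  have hfd : ∀ a : Fin k, T.dist v (f a) = a := fun a => hd a (by have := a.2; omega)
  have hinj : Function.Injective f := by
    intro a b hab
    have h1 := hfd a
    rw [hab, hfd b] at h1
    exact Fin.ext h1.symm
  refine ⟨univ.image f, ?_, iso_image T _ f hinj fun a b => ?_⟩
  · rw [mem_image]
    exact ⟨⟨0, hk⟩, mem_univ _, by simp [f]⟩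
  · rw [pathGraph_adj]
    constructor
    · intro h
      have h1 := hT.dist_triangle (u := v) (v := f a) (w := f b)
      have h2 := hT.dist_triangle (u := v) (v := f b) (w := f a)
      rw [dist_eq_one_iff_adj.2 h] at h1
      rw [dist_eq_one_iff_adj.2 h.symm] at h2
      have h3 : (a : ℕ) ≠ b := fun hc => h.ne (congrArg f (Fin.ext hc))
      rw [hfd a, hfd b] at h1
      rw [hfd a, hfd b] at h2
      omega
    · rintro (h | h)
      · have h1 : (a : ℕ) < p.length := by have := b.2; omega
        have := p.adj_getVert_succ h1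
        rw [h] at this
        exact this
      · have h1 : (b : ℕ) < p.length := by have := a.2; omega
        have := p.adj_getVert_succ h1
        rw [h] at this
        exact this.symm

open Classical in
omit [Fintype V] in
lemma star_iso {T : SimpleGraph V} (hT : T.IsTree) (j : ℕ) (U : Finset V)
    (hU : U.card = j + 4) (hS : StarShaped T U) :
    Nonempty (T.induce (U : Set V) ≃g starGraph (0 : Fin (j + 4))) := by
  obtain ⟨c, hc, hadj⟩ := hS
  have hcard : (U.erase c).card = j + 3 := by rw [card_erase_of_mem hc]; omega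
  let e := (U.erase c).equivFinOfCardEq hcard
  let f : Fin (j + 4) → V := Fin.cons c fun a : Fin (j + 3) => ((e.symm a : U.erase c) : V)
  have hf0 : f 0 = c := rfl
  have hfs : ∀ a : Fin (j + 3), f a.succ = ((e.symm a : U.erase c) : V) := fun a => rfl
  have hmem : ∀ a : Fin (j + 3), f a.succ ∈ U.erase c := fun a => (e.symm a).2
  have hne : ∀ a : Fin (j + 3), f a.succ ≠ c := fun a => (mem_erase.1 (hmem a)).1
  have hadj' : ∀ a : Fin (j + 3), T.Adj c (f a.succ) := fun a =>
    hadj _ (mem_erase.1 (hmem a)).2 (hne a)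
  have hinj : Function.Injective f := by
    intro a b hab
    rcases Fin.eq_zero_or_eq_succ a with rfl | ⟨a, rfl⟩ <;>
      rcases Fin.eq_zero_or_eq_succ b with rfl | ⟨b, rfl⟩
    · rfl
    · exact absurd hab.symm (hne b)
    · exact absurd hab (hne a)
    · rw [hfs, hfs] at hab
      have := e.symm.injective (Subtype.ext hab)
      rw [this]
  have himg : univ.image f = U := by
    apply Finset.eq_of_subset_of_card_le
    · intro x hx
      rw [mem_image] at hx
      obtain ⟨a, -, rfl⟩ := hx
      rcases Fin.eq_zero_or_eq_succ a with rfl | ⟨a, rfl⟩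
      · exact hc
      · exact (mem_erase.1 (hmem a)).2
    · rw [card_image_of_injective _ hinj, card_univ, Fintype.card_fin, hU]
  rw [← himg]
  refine iso_image T _ f hinj fun a b => ?_
  rw [starGraph_adj]
  rcases Fin.eq_zero_or_eq_succ a with rfl | ⟨a, rfl⟩ <;>
    rcases Fin.eq_zero_or_eq_succ b with rfl | ⟨b, rfl⟩
  · simp
  · refine ⟨fun _ => ⟨(Fin.succ_ne_zero b).symm, Or.inl rfl⟩, fun _ => hadj' b⟩
  · refine ⟨fun _ => ⟨Fin.succ_ne_zero a, Or.inr rfl⟩, fun _ => (hadj' a).symm⟩
  · constructor
    · intro h
      exfalso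
      refine hT.dist_ne_of_adj c h ?_
      rw [dist_eq_one_iff_adj.2 (hadj' a), dist_eq_one_iff_adj.2 (hadj' b)]
    · rintro ⟨-, h | h⟩
      · exact absurd h (Fin.succ_ne_zero a)
      · exact absurd h (Fin.succ_ne_zero b)

omit [Fintype V] in
open Classical in
/-- a set that induces a star is star-shaped -/
lemma star_of_iso {T : SimpleGraph V} (j : ℕ) (U : Finset V)
    (h : Nonempty (T.induce (U : Set V) ≃g starGraph (0 : Fin (j + 4)))) :
    U.card = j + 4 ∧ StarShaped T U ∧ (T.induce (U : Set V)).Connected := by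
  obtain ⟨e⟩ := h
  refine ⟨?_, ?_, ?_⟩
  · have h1 : Fintype.card (U : Set V) = Fintype.card (Fin (j + 4)) := Fintype.card_congr e.toEquiv
    simpa using h1
  · refine ⟨(e.symm 0 : (U : Set V)), by exact_mod_cast (e.symm 0).2, fun w hw hwc => ?_⟩
    have h1 : (starGraph (0 : Fin (j + 4))).Adj 0 (e ⟨w, by exact_mod_cast hw⟩) := by
      rw [starGraph_adj]
      refine ⟨fun h0 => hwc ?_, Or.inl rfl⟩
      have h3 := congrArg e.symm h0
      rw [RelIso.symm_apply_apply] at h3
      exact (congrArg Subtype.val h3).symm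
    have h2 := (e.symm.map_adj_iff).2 h1
    rw [RelIso.symm_apply_apply] at h2
    exact h2
  · exact e.symm.connected_iff.1 (isTree_starGraph _).connected

omit [Fintype V] in
lemma path_of_iso {T : SimpleGraph V} (k : ℕ) (hk : 1 ≤ k) (U : Finset V)
    (h : Nonempty (T.induce (U : Set V) ≃g pathGraph k)) :
    U.card = k ∧ (T.induce (U : Set V)).Connected := by
  obtain ⟨e⟩ := h
  refine ⟨?_, ?_⟩
  · have h1 : Fintype.card (U : Set V) = Fintype.card (Fin k) := Fintype.card_congr e.toEquiv
    simpa using h1
  · obtain ⟨m, rfl⟩ : ∃ m, k = m + 1 := ⟨k - 1, by omega⟩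
    exact e.symm.connected_iff.1 (pathGraph_connected m)

end Run7.h773.VP
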