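import Mathlib

set_option autoImplicit false

namespace Run7.h773.VP

open SimpleGraph Finset

lemma deg_le (e : ℕ) (he : 2 ≤ e) (ε : ℝ) (hε : 0 < ε) (d : ℕ) : (d : ℝ) ≤ ε * (d : ℝ) ^ e + 1 / ε := by
  rcases le_or_gt ((d : ℝ)) (1 / ε) with h | h
  · have : 0 ≤ ε * (d : ℝ) ^ e := by positivity
    linarith
  · have h1 : 1 < ε * d := by
      rw [div_lt_iff₀ hε] at h
      linarith
    have hd : (1 : ℝ) ≤ d := by
      have : d ≠ 0 := by
        rintro rfl
        simp at h1
        linarith
      exact_mod_cast Nat.one_le_iff_ne_zero.2 this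
    have h2 : (d : ℝ) ^ 2 ≤ (d : ℝ) ^ e := pow_le_pow_right₀ hd he
    have h3 : (0 : ℝ) < 1 / ε := by positivity
    nlinarith [mul_le_mul_of_nonneg_left h2 hε.le]

open Classical in
lemma level_bound (e : ℕ) (he : 2 ≤ e) : ∀ (i : ℕ) (ε : ℝ), 0 < ε → ∃ C : ℝ, 0 ≤ C ∧
    ∀ (V : Type) [Fintype V] (T : SimpleGraph V), T.Connected → ∀ v : V,
      ((univ.filter fun z => T.dist v z = i).card : ℝ) ≤ ε * ∑ x, (T.degree x : ℝ) ^ e + C := by
  intro i
  induction i with
  | zero =>
    intro ε hε
    refine ⟨1, zero_le_one, fun V _ T hT v => ?_⟩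
    have h1 : (univ.filter fun z => T.dist v z = 0).card ≤ 1 := by
      rw [card_le_one]
      intro a ha b hb
      rw [mem_filter, hT.dist_eq_zero_iff] at ha hb
      rw [← ha.2, ← hb.2]
    have h2 : (0 : ℝ) ≤ ε * ∑ x, (T.degree x : ℝ) ^ e := by positivity
    have h3 : ((univ.filter fun z => T.dist v z = 0).card : ℝ) ≤ 1 := by exact_mod_cast h1
    linarith
  | succ i ih =>
    intro ε hε
    obtain ⟨C, hC, h⟩ := ih (ε / 2 * (ε / 2)) (by positivity)
    refine ⟨C / (ε / 2), by positivity, fun V _ T hT v => ?_⟩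
    have hF : (0 : ℝ) ≤ ∑ x, (T.degree x : ℝ) ^ e := by positivity
    have hsub : (univ.filter fun z => T.dist v z = i + 1) ⊆
        (univ.filter fun z => T.dist v z = i).biUnion fun u => T.neighborFinset u := by
      intro z hz
      rw [mem_filter] at hz
      obtain ⟨p, hp⟩ := hT.exists_walk_length_eq_dist z v
      rw [dist_comm, hz.2] at hp
      cases p with
      | nil => simp at hp
      | @cons _ u _ hadj q =>
        rw [Walk.length_cons] at hp
        rw [mem_biUnion]
        refine ⟨u, ?_, by rw [mem_neighborFinset]; exact hadj.symm⟩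
        rw [mem_filter]
        refine ⟨mem_univ _, ?_⟩
        have h1 : T.dist v u ≤ i := by
          rw [dist_comm]
          exact (dist_le q).trans (by omega)
        have h2 := hT.dist_triangle (u := v) (v := u) (w := z)
        rw [dist_eq_one_iff_adj.2 hadj.symm, hz.2] at h2
        omega
    have h1 : ((univ.filter fun z => T.dist v z = i + 1).card : ℝ) ≤
        ∑ u ∈ univ.filter (fun z => T.dist v z = i), (T.degree u : ℝ) := by
      have h2 : (univ.filter fun z => T.dist v z = i + 1).card ≤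
          ∑ u ∈ univ.filter (fun z => T.dist v z = i), T.degree u :=
        (card_le_card hsub).trans (card_biUnion_le.trans (sum_le_sum fun u _ => by
          rw [card_neighborFinset_eq_degree]))
      exact_mod_cast h2
    have h3 : ∑ u ∈ univ.filter (fun z => T.dist v z = i), (T.degree u : ℝ) ≤
        ∑ u ∈ univ.filter (fun z => T.dist v z = i), (ε / 2 * (T.degree u : ℝ) ^ e + 1 / (ε / 2)) :=
      sum_le_sum fun u _ => deg_le e he (ε / 2) (by positivity) _
    have h4 : ∑ u ∈ univ.filter (fun z => T.dist v z = i),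
        (ε / 2 * (T.degree u : ℝ) ^ e + 1 / (ε / 2)) =
        ε / 2 * ∑ u ∈ univ.filter (fun z => T.dist v z = i), (T.degree u : ℝ) ^ e +
          ((univ.filter fun z => T.dist v z = i).card : ℝ) * (1 / (ε / 2)) := by
      rw [sum_add_distrib, ← mul_sum, sum_const, nsmul_eq_mul]
    have h5 : ∑ u ∈ univ.filter (fun z => T.dist v z = i), (T.degree u : ℝ) ^ e ≤
        ∑ u, (T.degree u : ℝ) ^ e :=
      sum_le_sum_of_subset_of_nonneg (filter_subset _ _) fun _ _ _ => by positivity
    have h6 := h V T hT v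
    have hpos : (0 : ℝ) < 1 / (ε / 2) := by positivity
    have h7 : ((univ.filter fun z => T.dist v z = i).card : ℝ) * (1 / (ε / 2)) ≤
        (ε / 2 * (ε / 2) * ∑ x, (T.degree x : ℝ) ^ e + C) * (1 / (ε / 2)) :=
      mul_le_mul_of_nonneg_right h6 hpos.le
    have h8 : (ε / 2 * (ε / 2) * ∑ x, (T.degree x : ℝ) ^ e + C) * (1 / (ε / 2)) =
        ε / 2 * ∑ x, (T.degree x : ℝ) ^ e + C / (ε / 2) := by
      field_simp
    have h9 : ε / 2 * ∑ u ∈ univ.filter (fun z => T.dist v z = i), (T.degree u : ℝ) ^ e ≤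
        ε / 2 * ∑ u, (T.degree u : ℝ) ^ e := mul_le_mul_of_nonneg_left h5 (by positivity)
    push_cast at *
    linarith

open Classical in
/-- in a graph with a vertex of small eccentricity the number of vertices is small in comparison
with the sum of the powers of the degrees -/
lemma small_ecc (e : ℕ) (he : 2 ≤ e) (R : ℕ) (ε : ℝ) (hε : 0 < ε) : ∃ C : ℝ, 0 ≤ C ∧
    ∀ (V : Type) [Fintype V] (T : SimpleGraph V), T.Connected → ∀ v : V,
      (∀ z, T.dist v z ≤ R) →
      (Fintype.card V : ℝ) ≤ ε * ∑ x, (T.degree x : ℝ) ^ e + C := by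
  have hR : (0 : ℝ) < R + 1 := by positivity
  choose C hC h using fun i : ℕ => level_bound e he i (ε / (R + 1)) (by positivity)
  refine ⟨∑ i ∈ range (R + 1), C i, sum_nonneg fun i _ => hC i, fun V _ T hT v hv => ?_⟩
  have h1 : Fintype.card V = ∑ i ∈ range (R + 1), (univ.filter fun z => T.dist v z = i).card := by
    rw [← card_univ]
    exact card_eq_sum_card_fiberwise fun z _ => by
      simp only [coe_range, Set.mem_Iio]
      have := hv z
      omega
  rw [h1]
  push_cast
  calc ∑ i ∈ range (R + 1), ((univ.filter fun z => T.dist v z = i).card : ℝ)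
      ≤ ∑ i ∈ range (R + 1), (ε / (R + 1) * ∑ x, (T.degree x : ℝ) ^ e + C i) :=
        sum_le_sum fun i _ => h i V T hT v
    _ = _ := by
        rw [sum_add_distrib, sum_const, card_range, nsmul_eq_mul]
        push_cast
        field_simp

end Run7.h773.VP
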