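import Pool.Agent.Run7.h773.VP.Count
import Pool.Agent.Run7.h773.VP.Edge
import Pool.Agent.Run7.h773.VP.Level
import Pool.Agent.Run7.h773.VP.Iso

set_option autoImplicit false

namespace Run7.h773.VP

open SimpleGraph Finset Filter Topology

variable {V : Type} [Fintype V]

/-- a constant -/
def K (j : ℕ) : ℕ := 2 ^ (j + 3) * (j + 3).factorial + (2 * (j + 4)) ^ (j + 3)

lemma K_pos (j : ℕ) : 0 < K j := by unfold K; positivity

lemma pow_le_K (j d : ℕ) : d ^ (j + 3) ≤ K j * (d.choose (j + 3) + 1) := by
  rcases Nat.lt_or_ge d (2 * (j + 3)) with h | h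
  · calc d ^ (j + 3) ≤ (2 * (j + 4)) ^ (j + 3) := Nat.pow_le_pow_left (by omega) _
      _ ≤ K j := Nat.le_add_left _ _
      _ ≤ K j * (d.choose (j + 3) + 1) := Nat.le_mul_of_pos_right _ (Nat.succ_pos _)
  · calc d ^ (j + 3) ≤ (2 * (d + 1 - (j + 3))) ^ (j + 3) := Nat.pow_le_pow_left (by omega) _
      _ = 2 ^ (j + 3) * (d + 1 - (j + 3)) ^ (j + 3) := by rw [mul_pow]
      _ ≤ 2 ^ (j + 3) * d.descFactorial (j + 3) :=
          Nat.mul_le_mul_left _ (Nat.pow_sub_le_descFactorial _ _)
      _ = 2 ^ (j + 3) * (j + 3).factorial * d.choose (j + 3) := by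
          rw [Nat.descFactorial_eq_factorial_mul_choose, mul_assoc]
      _ ≤ K j * (d.choose (j + 3) + 1) :=
          Nat.mul_le_mul (Nat.le_add_right _ _) (Nat.le_succ _)

open Classical in
lemma double (𝒰 : Finset (Finset V)) :
    ∑ v : V, (𝒰.filter fun U => v ∈ U).card = ∑ U ∈ 𝒰, U.card := by
  simp_rw [card_filter]
  rw [sum_comm]
  refine sum_congr rfl fun U _ => ?_
  rw [← card_filter]
  congr 1
  ext x
  simp

open Classical in
lemma star_count {T : SimpleGraph V} (hT : T.IsTree) (j : ℕ) :
    ∑ v, (T.degree v).choose (j + 3) ≤ (j + 4) * copies T (starGraph (0 : Fin (j + 4))) := by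
  set 𝒰 : Finset (Finset V) := univ.filter fun U : Finset V =>
    Nonempty (T.induce (U : Set V) ≃g starGraph (0 : Fin (j + 4))) with h𝒰
  have h1 : ∀ v, (T.degree v).choose (j + 3) ≤ (𝒰.filter fun U => v ∈ U).card := by
    intro v
    rw [← card_neighborFinset_eq_degree, ← card_powersetCard]
    refine card_le_card_of_injOn (fun W => insert v W) ?_ ?_
    · intro W hW
      rw [mem_coe, mem_powersetCard] at hW
      have hv : v ∉ W := fun h => by simpa using hW.1 h
      rw [mem_coe, mem_filter, h𝒰, mem_filter]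
      refine ⟨⟨mem_univ _, star_iso hT j _ (by rw [card_insert_of_notMem hv, hW.2])
        ⟨v, mem_insert_self _ _, fun w hw hwv => ?_⟩⟩, mem_insert_self _ _⟩
      have := hW.1 ((mem_insert.1 hw).resolve_left hwv)
      rwa [mem_neighborFinset] at this
    · intro W hW W' hW' he
      rw [mem_coe, mem_powersetCard] at hW hW'
      have hv : v ∉ W := fun h => by simpa using hW.1 h
      have hv' : v ∉ W' := fun h => by simpa using hW'.1 h
      have := congrArg (fun A => A.erase v) he
      simpa [erase_insert hv, erase_insert hv'] using this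
  calc _ ≤ ∑ v, (𝒰.filter fun U => v ∈ U).card := sum_le_sum fun v _ => h1 v
    _ = ∑ U ∈ 𝒰, U.card := double 𝒰
    _ = ∑ U ∈ 𝒰, (j + 4) := sum_congr rfl fun U hU => by
        rw [h𝒰, mem_filter] at hU
        exact (star_of_iso j U hU.2).1
    _ = (j + 4) * 𝒰.card := by rw [sum_const, smul_eq_mul, mul_comm]
    _ = _ := by
        unfold copies
        congr 2

open Classical in
lemma path_count {T : SimpleGraph V} (hT : T.IsTree) (j : ℕ)
    (h : ∀ v, ∃ z, j + 3 ≤ T.dist v z) :
    Fintype.card V ≤ (j + 4) * copies T (pathGraph (j + 4)) := by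
  set 𝒰 : Finset (Finset V) := univ.filter fun U : Finset V =>
    Nonempty (T.induce (U : Set V) ≃g pathGraph (j + 4)) with h𝒰
  calc Fintype.card V = ∑ _v : V, 1 := by simp
    _ ≤ ∑ v, (𝒰.filter fun U => v ∈ U).card := sum_le_sum fun v _ => by
        obtain ⟨z, hz⟩ := h v
        obtain ⟨U, h1, h2⟩ := path_through hT.connected (j + 4) v z (by omega) (by omega)
        rw [Nat.one_le_iff_ne_zero, card_ne_zero]
        exact ⟨U, by rw [mem_filter, h𝒰, mem_filter]; exact ⟨⟨mem_univ _, h2⟩, h1⟩⟩
    _ = ∑ U ∈ 𝒰, U.card := double 𝒰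
    _ = ∑ U ∈ 𝒰, (j + 4) := sum_congr rfl fun U hU => by
        rw [h𝒰, mem_filter] at hU
        exact (path_of_iso (j + 4) (by omega) U hU.2).1
    _ = (j + 4) * 𝒰.card := by rw [sum_const, smul_eq_mul, mul_comm]
    _ = _ := by
        unfold copies
        congr 2

open Classical in
lemma star_le (T : SimpleGraph V) (j : ℕ) :
    copies T (starGraph (0 : Fin (j + 4))) ≤ (subtrees T (j + 4)).card := by
  refine card_le_card fun U hU => ?_
  rw [mem_filter] at hU
  have := star_of_iso j U hU.2
  rw [subtrees, mem_filter]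
  exact ⟨mem_univ _, this.1, this.2.2⟩

open Classical in
lemma path_le (T : SimpleGraph V) (j : ℕ) :
    copies T (pathGraph (j + 4)) ≤ (subtrees T (j + 4)).card := by
  refine card_le_card fun U hU => ?_
  rw [mem_filter] at hU
  have := path_of_iso (j + 4) (by omega) U hU.2
  rw [subtrees, mem_filter]
  exact ⟨mem_univ _, this.1, this.2⟩

open Classical in
lemma total_le {T : SimpleGraph V} (hT : T.IsTree) (j : ℕ) :
    (subtrees T (j + 4)).card ≤ copies T (starGraph (0 : Fin (j + 4))) +
      ((subtrees T (j + 4)).filter fun U => ¬ StarShaped T U).card := by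
  have h1 := card_filter_add_card_filter_not (s := subtrees T (j + 4)) (fun U => StarShaped T U)
  have h2 : ((subtrees T (j + 4)).filter fun U => StarShaped T U).card ≤
      copies T (starGraph (0 : Fin (j + 4))) := by
    refine card_le_card fun U hU => ?_
    rw [mem_filter, subtrees, mem_filter] at hU
    rw [mem_filter]
    exact ⟨mem_univ _, star_iso hT j U hU.1.2.1 hU.2⟩
  omega

end Run7.h773.VP
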