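import Pool.Agent.Run7.h773.VP.Final

set_option autoImplicit false

/-!
# Trees with few paths are dominated by stars (MP_b90d6a_co, Q1)

Let `k ≥ 4`. If the density of the path among the subtrees with `k` vertices of the trees `T_n`,
`|T_n| → ∞`, tends to zero, then the density of the star `K_{1, k - 1}` tends to one.

The proof shows that for every `ε > 0` there is `C` such that all large trees `T` have at most
`ε S + C P` subtrees with `k` vertices which are not stars, where `S` and `P` are the numbers of
stars and paths with `k` vertices in `T`. Put `F = ∑ deg(v) ^ (k - 1)`.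

* A subtree which is not a star has an internal vertex `h` of largest degree, and an internal vertex
  `g` adjacent to it. So there are at most `C ∑ deg(g) deg(h) ^ (k - 3)` such subtrees, the sum being
  over the edges `gh` with `deg(g) ≤ deg(h)`. The edges with `deg(h) > M ^ (k - 1)` contribute at most
  `3 F / M`: root the tree; every vertex has only one parent, and if the child `g` has degree less than
  `deg(h) / M` then the contribution is small, otherwise `deg(g) ^ (k - 1)` is large.
* The other edges contribute at most a constant times the number `n` of vertices. If every vertex is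
  on a path with `k` vertices then `n ≤ k P`. Otherwise some vertex has distance at most `k - 2` to all
  others, and then `n ≤ ε F + C` (by induction on the distance).
* `F ≤ C (S + n)`.
-/

namespace Run7.h773.VP.OnlyStars

open SimpleGraph Finset Filter Topology

open Classical in
/-- `c(S, T)`: the number of the sets `U` of vertices of `T` with `T[U]` isomorphic to `S`. -/
noncomputable def count {k m : ℕ} (S : SimpleGraph (Fin k)) (T : SimpleGraph (Fin m)) : ℕ :=
  (univ.filter fun U : Finset (Fin m) => Nonempty (T.induce (U : Set (Fin m)) ≃g S)).card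

open Classical in
/-- `Z_k(T)`: the number of the sets `U` of `k` vertices of `T` for which `T[U]` is a tree, that is,
the sum of `c(S, T)` over the isomorphism types of the trees `S` with `k` vertices. -/
noncomputable def total (k : ℕ) {m : ℕ} (T : SimpleGraph (Fin m)) : ℕ :=
  (univ.filter fun U : Finset (Fin m) =>
    U.card = k ∧ (T.induce (U : Set (Fin m))).IsTree).card

/-- The `k`-profile of `T`. Its coordinates are indexed by the graphs `S` with the vertices
`0, …, k - 1`; isomorphic graphs `S` have the same coordinate, and the coordinate of `S` is zero if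
`S` is not a tree. -/
noncomputable def profile (k : ℕ) {m : ℕ} (T : SimpleGraph (Fin m)) (S : SimpleGraph (Fin k)) : ℝ :=
  (count S T : ℝ) / total k T

/-- The set of the limits of the `k`-profiles of trees whose numbers of vertices tend to infinity. -/
def limitSet (k : ℕ) : Set (SimpleGraph (Fin k) → ℝ) :=
  {p | ∃ (m : ℕ → ℕ) (T : ∀ n, SimpleGraph (Fin (m n))), (∀ n, (T n).IsTree) ∧
    Tendsto m atTop atTop ∧ ∀ S, Tendsto (fun n => profile k (T n) S) atTop (𝓝 (p S))}

theorem total_eq {m : ℕ} (k : ℕ) {T : SimpleGraph (Fin m)} (hT : T.IsTree) :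
    total k T = (Run7.h773.VP.subtrees T k).card := by
  classical
  unfold total Run7.h773.VP.subtrees
  congr 1
  ext U
  simp only [mem_filter, mem_univ, true_and]
  exact and_congr_right fun _ => ⟨fun h => h.connected, fun h => ⟨h, hT.isAcyclic.induce _⟩⟩

theorem count_eq {m k : ℕ} (S : SimpleGraph (Fin k)) (T : SimpleGraph (Fin m)) :
    count S T = Run7.h773.VP.copies T S := by
  classical
  unfold count Run7.h773.VP.copies
  congr 1

/-- **Limiting path density zero implies limiting star density one.** Let `k ≥ 4`.
(1) For every `ε > 0` there are `C` and `n₀` such that every tree `T` with at least `n₀` vertices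
satisfies `Z_k(T) ≤ (1 + ε) c(K_{1,k-1}, T) + C c(P_k, T)`.
(2) If `p` is in the limit set of the `k`-profiles of trees and its coordinate at the path is `0`,
then its coordinate at the star is `1`. -/
theorem onlyStars (k : ℕ) (hk : 4 ≤ k) :
    (∀ ε : ℝ, 0 < ε → ∃ (C : ℝ) (n₀ : ℕ), ∀ (m : ℕ) (T : SimpleGraph (Fin m)), T.IsTree → n₀ ≤ m →
      (total k T : ℝ) ≤
        (1 + ε) * count (starGraph (⟨0, by omega⟩ : Fin k)) T + C * count (pathGraph k) T) ∧
    ∀ p ∈ limitSet k, p (pathGraph k) = 0 → p (starGraph ⟨0, by omega⟩) = 1 := by
  obtain ⟨j, rfl⟩ : ∃ j, k = j + 4 := ⟨k - 4, by omega⟩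
  have h0 : (⟨0, by omega⟩ : Fin (j + 4)) = 0 := rfl
  constructor
  · intro ε hε
    obtain ⟨C, -, n₀, h⟩ := Run7.h773.VP.quant j ε hε
    refine ⟨C, n₀, fun m T hT hm => ?_⟩
    have h1 := (h (Fin m) T hT (by rwa [Fintype.card_fin])).1
    rw [total_eq _ hT, count_eq, count_eq, h0]
    exact h1
  · rintro p ⟨m, T, hT, hm, hp⟩ h1
    have h2 := hp (pathGraph (j + 4))
    have h3 := hp (starGraph ⟨0, by omega⟩)
    rw [h1] at h2
    unfold profile at h2 h3
    simp only [count_eq, total_eq _ (hT _)] at h2 h3
    rw [h0] at h3
    exact tendsto_nhds_unique h3 (Run7.h773.VP.main j m T hT hm h2)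

end Run7.h773.VP.OnlyStars
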